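import Pool.Agent.Q201.HTM.Arc
import Pool.Agent.Q201.HTM.Hull

/-!
# MP_b5ed04_co: the maximizers of the Holmes–Thompson translative convex hull constant

The plane convex bodies at which the constant is maximal are exactly the affine images of
`M₀(a)`, `a` the golden ratio, and the golden ratio is the only maximiser of
`area (M₀(a)°) (area M₀(a) + 4)` over `a > 1`.
-/

set_option autoImplicit false
open MeasureTheory Set Pointwise

namespace Pool.Agent.Results.MP_b5ed04_co.Maximisers

open Pool.Agent.Helper481.MS (IsConvexBody)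
open Pool.Agent.H356R3.HT (polar cTr htVol)
open Pool.Agent.Q201.HTM

theorem result :
    (∀ a : ℝ, 1 < a →
      ((∀ b : ℝ, 1 < b → volume (polar (arcBody b)) * (volume (arcBody b) + 4) ≤
          volume (polar (arcBody a)) * (volume (arcBody a) + 4)) ↔ a = (1 + √5) / 2)) ∧
    ∀ K : Set (Fin 2 → ℝ), IsConvexBody K →
      ((∀ L : Set (Fin 2 → ℝ), IsConvexBody L → cTr htVol L ≤ cTr htVol K) ↔
        ∃ (v : Fin 2 → ℝ) (A : (Fin 2 → ℝ) ≃L[ℝ] (Fin 2 → ℝ)),
          K = v +ᵥ (A '' arcBody ((1 + √5) / 2))) := by
  constructor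
  · intro a ha
    rw [← fam a ha]
    constructor
    · intro h b hb
      have := h b hb
      rwa [arcBody_eq hb, arcBody_eq ha] at this
    · intro h b hb
      rw [arcBody_eq hb, arcBody_eq ha]
      exact h b hb
  · intro K hK
    rw [arcBody_eq phi_gt]
    exact concl up lo hK

end Pool.Agent.Results.MP_b5ed04_co.Maximisers
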